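import Pool.Agent.Helper7.NT.Fin

/-!
# Energy equality for Leray-Hopf weak solutions all of whose times are of Type I

Let `u` be a Leray-Hopf weak solution with the strong energy inequality in a bounded open set
`Ω ⊆ ℝ³`. Suppose that every time `t` is of Type I seen from the left: either
`liminf_{s → t-} (t - s)^(-1/2) ∫_s^t ‖∇u‖² < ∞`, or, for some `q ∈ [3, ∞]` (depending on `t`),
`limsup_{s → t-} (t - s)^(-1/2) ‖u‖_{L^r(s, t; L^q)} < ∞` with `2/r + 3/q = 2`. These conditions
are invariant under the scaling of the equations, no uniformity in `t` is required, and nothing is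
assumed on the set of singular times. Countably many times can be exempted if no kinetic energy
is lost there. Then the energy equality holds at all times.

Proof idea. Let `a = u(s)`, `w = u - a`, and let `D` be the defect of the energy inequality. The
equations, tested with `a`, and `∫ (u · ∇) a · a = 0` give
`D(t) - D(s) + ½ ‖w(t)‖² = ∫_s^t (⟨f, w⟩ - ν ‖∇u‖² + ν ⟨∇u, ∇a⟩ - ∫ (u · ∇) a · w)`.
As `D(τ) ≥ D(s)`, Hoelder's inequality closes to a bound of `sup ‖w‖²` and of `D(t) - D(s)` by
`C_N (∫_s^t ‖f‖² + ∫_s^t ‖∇u‖² + (t - s) ‖∇u(s)‖²)`, where `C_N` depends only on the scale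
invariant quantity `N = (t - s)^(-1/2) ‖u‖_{L^r(s, t; L^q)}`. Choosing `s` well one finds, left of
every Type I time `t`, times `s` with `D(t) - D(s) ≤ C_t ∫_s^t (1 + ‖∇u‖² + ‖f‖²)`. The same
identity gives a nonpositive lower left derivative of `D` at almost every time. A function with
these properties, upper semicontinuous from the right, does not increase.
-/

open Set

namespace Pool.Agent.Results.MP_a38b17_an.TypeITimes

open Pool.Agent.Helper52.NSE Pool.Agent.Helper7.NT

/-- Let `u` be a Leray-Hopf weak solution on `[0, T]` in a bounded open set, with the strong energy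
inequality. If every `t ∈ (0, T]` is of Type I from the left, except for countably many times at
which no kinetic energy is lost, then the energy equality holds at every time of `[0, T]`. -/
theorem result (Ω : Set E3) (hO : IsOpen Ω) (hb : Bornology.IsBounded Ω) (ν T : ℝ) (hν : 0 < ν)
    (u₀ : E3 → E3) (f u : ℝ → E3 → E3) (G : ℝ → Fin 3 → E3 → E3)
    (h : WeakSolution Ω ν T u₀ f u G) (hS : StrongEnergyInequality Ω ν T f u G)
    (C : Set ℝ) (hC : C.Countable)
    (hI : ∀ t ∈ Ioc 0 T, TypeI Ω u G t ∨ (t ∈ C ∧ NoLoss Ω u t)) :
    ∀ t ∈ Icc 0 T, energyLeft Ω ν u G t = energyRight Ω f u t := by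
  intro t ht
  have h1 := main hO hb hν h.internal hS hC hI t ht
  unfold defect at h1
  unfold energyLeft energyRight
  linarith

end Pool.Agent.Results.MP_a38b17_an.TypeITimes
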